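import Pool.Agent.H73.G.R8.H294ZP.Main

/-!
# Points of the upper half-plane: equivalence under `GL₂⁺(ℚ)`, reflection, closures
-/

set_option autoImplicit false

open Matroid Set 

namespace Pool.Agent.Q280.MS

/-- `z` is a CM point. -/
def CM (z : ℂ) : Prop :=
  ∃ a b c : ℤ, (a ≠ 0 ∨ b ≠ 0 ∨ c ≠ 0) ∧ (a : ℂ) * z ^ 2 + (b : ℂ) * z + (c : ℂ) = 0

/-! ### Many algebraic points on the imaginary axis -/

end Pool.Agent.Q280.MS
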